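import Pool.Agent.Helper11.PV.St

set_option autoImplicit false

namespace Pool.Agent.Helper3.PV

open Finset Pool.Agent.Helper82.CN Pool.Agent.Helper11.PV

theorem ram_aux : ∀ (n : ℕ) (V : Type) [DecidableEq V] (G : SimpleGraph V) (h t : ℕ), h + t = n →
    ∀ S : Finset V, (h + t).choose t ≤ S.card →
    (∃ T ⊆ S, T.card = h ∧ ∀ u ∈ T, ∀ v ∈ T, u ≠ v → G.Adj u v) ∨
    (∃ T ⊆ S, T.card = t ∧ ∀ u ∈ T, ∀ v ∈ T, ¬ G.Adj u v) := by
  classical
  intro n
  induction n with
  | zero =>
    intro V _ G h t hn S _
    left
    exact ⟨∅, empty_subset _, by simp; omega, by simp⟩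
  | succ n ih =>
    intro V _ G h t hn S hS
    rcases Nat.eq_zero_or_pos h with h0 | h0
    · left
      exact ⟨∅, empty_subset _, by simp [h0], by simp⟩
    rcases Nat.eq_zero_or_pos t with t0 | t0
    · right
      exact ⟨∅, empty_subset _, by simp [t0], by simp⟩
    obtain ⟨h', rfl⟩ : ∃ h', h = h' + 1 := ⟨h - 1, by omega⟩
    obtain ⟨t', rfl⟩ : ∃ t', t = t' + 1 := ⟨t - 1, by omega⟩
    have hpas : (h' + 1 + (t' + 1)).choose (t' + 1) =
        (h' + (t' + 1)).choose (t' + 1) + (h' + 1 + t').choose t' := by
      have e1 : h' + 1 + (t' + 1) = (h' + 1 + t') + 1 := by ring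
      have e2 : h' + (t' + 1) = h' + 1 + t' := by ring
      rw [e1, Nat.choose_succ_succ', e2, add_comm]
    have hpos : 0 < (h' + 1 + (t' + 1)).choose (t' + 1) := Nat.choose_pos (by omega)
    obtain ⟨x, hx⟩ : S.Nonempty := by
      rw [← card_pos]
      omega
    set A := (S.erase x).filter (fun y => G.Adj x y) with hA
    set B := (S.erase x).filter (fun y => ¬ G.Adj x y) with hB
    have hAB : A.card + B.card = S.card - 1 := by
      rw [hA, hB, card_filter_add_card_filter_not, card_erase_of_mem hx]
    have hAS : A ⊆ S := (filter_subset _ _).trans (erase_subset _ _)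
    have hBS : B ⊆ S := (filter_subset _ _).trans (erase_subset _ _)
    have hxA : ∀ y ∈ A, G.Adj x y := fun y hy => (mem_filter.mp hy).2
    have hxB : ∀ y ∈ B, ¬ G.Adj x y := fun y hy => (mem_filter.mp hy).2
    have hxnA : x ∉ A := fun hh => by simpa using (mem_filter.mp hh).1
    have hxnB : x ∉ B := fun hh => by simpa using (mem_filter.mp hh).1
    by_cases hcase : (h' + (t' + 1)).choose (t' + 1) ≤ A.card
    · rcases ih V G h' (t' + 1) (by omega) A hcase with ⟨T, hT, hc, hadj⟩ | ⟨T, hT, hc, hadj⟩
      · left
        refine ⟨insert x T, insert_subset hx (hT.trans hAS), ?_, ?_⟩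
        · rw [card_insert_of_notMem (fun hh => hxnA (hT hh)), hc]
        · intro u hu v hv huv
          rcases mem_insert.mp hu with hu1 | hu1
          · rcases mem_insert.mp hv with hv1 | hv1
            · exact absurd (hu1.trans hv1.symm) huv
            · rw [hu1]
              exact hxA v (hT hv1)
          · rcases mem_insert.mp hv with hv1 | hv1
            · rw [hv1]
              exact (hxA u (hT hu1)).symm
            · exact hadj u hu1 v hv1 huv
      · right
        exact ⟨T, hT.trans hAS, hc, hadj⟩
    · have hcase2 : (h' + 1 + t').choose t' ≤ B.card := by omega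
      rcases ih V G (h' + 1) t' (by omega) B hcase2 with ⟨T, hT, hc, hadj⟩ | ⟨T, hT, hc, hadj⟩
      · left
        exact ⟨T, hT.trans hBS, hc, hadj⟩
      · right
        refine ⟨insert x T, insert_subset hx (hT.trans hBS), ?_, ?_⟩
        · rw [card_insert_of_notMem (fun hh => hxnB (hT hh)), hc]
        · intro u hu v hv
          rcases mem_insert.mp hu with hu1 | hu1
          · rcases mem_insert.mp hv with hv1 | hv1
            · rw [hu1, hv1]
              exact G.loopless.irrefl _
            · rw [hu1]
              exact hxB v (hT hv1)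
          · rcases mem_insert.mp hv with hv1 | hv1
            · rw [hv1]
              exact fun hh => hxB u (hT hu1) hh.symm
            · exact hadj u hu1 v hv1

theorem tRAM : StRAM := fun V _ G h t S hS => ram_aux (h + t) V G h t rfl S hS

end Pool.Agent.Helper3.PV
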